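import Pool.Agent.H458.AG.Def

/-!
# Project AG (helper458): the number of the bad polynomials which are good at all primes in `S`,
# for all genera (the case of genus one is `H549/AU458/BDS.lean`)
-/

set_option autoImplicit false
set_option linter.unusedSectionVars false

open Polynomial Matrix IsDedekindDomain NumberField
open scoped Classical

namespace Pool.Agent.H47.AG458.BDS

open Pool.Agent.N783.PF (Bd Cg sp rd Ht GoodS LBad Weak dsc fF Xset)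
open Pool.Agent.N783.PF (S_BAD)
open Pool.Agent.H458.AU (PrQ)
open Pool.Agent.H458.AG

section

variable {F : Type} [Field F] [NumberField F]

theorem finite_quot {q : ℕ} (hq : 0 < q) : Finite (𝓞 F ⧸ sp F q) := by
  apply Ideal.finiteQuotientOfFreeOfNeBot
  rw [sp, Ne, Ideal.span_singleton_eq_bot]
  exact_mod_cast hq.ne'

theorem finite_GR (g : ℕ) {q : ℕ} (hq : 0 < q) (𝔮 : Ideal (𝓞 F)) : (GR g q 𝔮).Finite := by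
  have h := finite_quot (F := F) hq
  exact Set.toFinite _

theorem divX_deg {g : ℕ} {f : (𝓞 F)[X]} (hf : Pol g f) : f.divX.natDegree = 2 * g := by
  rw [natDegree_divX_eq_natDegree_tsub_one, hf.deg, Nat.add_sub_cancel]

theorem divX_mon {g : ℕ} {f : (𝓞 F)[X]} (hf : Pol g f) : f.divX.Monic := by
  have h := hf.mon.coeff_natDegree
  rw [hf.deg] at h
  rw [Monic, leadingCoeff, divX_deg hf, coeff_divX]
  exact h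

theorem cg_divX {𝔮 : Ideal (𝓞 F)} {f : (𝓞 F)[X]} (hf : f.coeff 0 ∈ 𝔮) : Cg 𝔮 f (X * f.divX) := by
  intro j
  have h1 : f - X * f.divX = C (f.coeff 0) := by
    have h2 := divX_mul_X_add f
    rw [mul_comm] at h2
    exact sub_eq_of_eq_add' h2.symm
  rw [← coeff_sub, h1, coeff_C]
  split_ifs
  · exact hf
  · exact 𝔮.zero_mem

theorem goodS {g W : ℕ} (hW : 0 < W) (hgW : 2 * g + 1 ≤ W) {S : Finset ℕ} {𝔮 : ℕ → Ideal (𝓞 F)}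
    (hS : ∀ q ∈ S, PrQ W q (𝔮 q)) {P : ℕ → (𝓞 F)[X]}
    (hP : ∀ q ∈ S, Pol g (P q) ∧ Gq q (𝔮 q) (P q)) :
    GoodS g W S 𝔮 (fun q => (P q).divX) P := by
  intro q hq
  have h1 := hS q hq
  have h2 := h1.mod8 hW
  obtain ⟨h3, h4⟩ := hP q hq
  exact ⟨h1.pr, h1.big, lt_of_le_of_lt hgW h1.big, h2.1, h1.unr, h1.qp, h1.mem, divX_mon h3,
    divX_deg h3, h4.2.1, h3.mon, h3.deg, h3.tr, cg_divX h4.1, h4.2.2⟩

theorem lbad {g N κ : ℕ} {S : Finset ℕ} {𝔮 : ℕ → Ideal (𝓞 F)} {P : ℕ → (𝓞 F)[X]} {f : (𝓞 F)[X]}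
    (hP : ∀ q ∈ S, ∀ 𝔭 : Ideal (𝓞 F), 𝔭.IsPrime → (q : 𝓞 F) ∈ 𝔭 → rd 𝔭 f = rd 𝔭 (P q))
    (h : BadS g N κ S 𝔮 f) : LBad g N κ S 𝔮 P f := by
  obtain ⟨h1, w, h2, h3, h4, A, B, h5, h6⟩ := h
  refine ⟨h1, w, h2, h3, h4, A, B, ⟨h5.box, fun q hq 𝔭 hp hqp => ?_, h5.dist⟩, h6⟩
  rw [← hP q hq 𝔭 hp hqp]
  exact h5.con q hq 𝔭 hp hqp

/-- A choice of a good residue for every prime in `S`. -/
abbrev Rho (g : ℕ) (S : Finset ℕ) (𝔮 : ℕ → Ideal (𝓞 F)) : Type := ∀ q : S, GR g (q : ℕ) (𝔮 q)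

theorem finite_rho (g : ℕ) {S : Finset ℕ} {𝔮 : ℕ → Ideal (𝓞 F)} (hS : ∀ q ∈ S, 0 < q) :
    Finite (Rho g S 𝔮) := by
  have h : ∀ q : S, Finite (GR g (q : ℕ) (𝔮 q)) := fun q =>
    (finite_GR g (hS q q.2) _).to_subtype
  exact inferInstance

theorem card_rho (g : ℕ) (S : Finset ℕ) (𝔮 : ℕ → Ideal (𝓞 F)) :
    Nat.card (Rho g S 𝔮) = ∏ q ∈ S, (GR g q (𝔮 q)).ncard := by
  rw [Nat.card_pi, ← Finset.prod_coe_sort S (fun q => (GR g q (𝔮 q)).ncard)]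
  exact Finset.prod_congr rfl fun q _ => Nat.card_coe_set_eq _

/-- Representatives of the residues. -/
theorem reps (g : ℕ) (S : Finset ℕ) (𝔮 : ℕ → Ideal (𝓞 F)) (ρ : Rho g S 𝔮) :
    ∃ P : ℕ → (𝓞 F)[X], (∀ q ∈ S, Pol g (P q) ∧ Gq q (𝔮 q) (P q)) ∧
      ∀ q : S, (ρ q : Fin (2 * g) → 𝓞 F ⧸ sp F q) = mkr g (q : ℕ) (P q) := by
  have h : ∀ q : ℕ, ∃ P : (𝓞 F)[X], ∀ hq : q ∈ S, (Pol g P ∧ Gq q (𝔮 q) P) ∧
      (ρ ⟨q, hq⟩ : Fin (2 * g) → 𝓞 F ⧸ sp F q) = mkr g q P := by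
    intro q
    by_cases hq : q ∈ S
    · obtain ⟨P, h0, h1, h2⟩ := (ρ ⟨q, hq⟩).2
      exact ⟨P, fun _ => ⟨⟨h0, h1⟩, h2⟩⟩
    · exact ⟨0, fun h => absurd h hq⟩
  choose P hP using h
  exact ⟨P, fun q hq => (hP q hq).1, fun q => (hP q q.2).2⟩

end

theorem bds (h : Pool.Agent.N783.PF.S_BAD) : Pool.Agent.H458.AG.S_BDS := by
  intro F _ _ g κ hg
  obtain ⟨C, K, hCK⟩ := h F g κ hg
  refine ⟨C, K, fun W S 𝔮 hKW hW hgW hS => ?_⟩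
  have hpos : ∀ q ∈ S, 0 < q := fun q hq => (hS q hq).pr.pos
  have hfin := finite_rho g (𝔮 := 𝔮) hpos
  have hft : Fintype (Rho g S 𝔮) := Fintype.ofFinite _
  choose P hP1 hP2 using reps g S 𝔮
  have hN : ∀ ρ : Rho g S 𝔮, ∃ N₀ : ℕ, ∀ N ≥ N₀,
      {f : (𝓞 F)[X] | LBad g N κ S 𝔮 (P ρ) f}.Finite ∧
      2 ^ S.card * (∏ q ∈ S, q ^ (2 * g)) ^ Module.finrank ℚ F *
        {f : (𝓞 F)[X] | LBad g N κ S 𝔮 (P ρ) f}.ncard ≤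
      C * 2 ^ (Module.finrank ℚ F * (2 * N * Pool.Agent.N352.PJ.dd g)) := fun ρ =>
    hCK W S 𝔮 _ _ hKW (goodS hW hgW hS (hP1 ρ))
  choose N₀ hN₀ using hN
  refine ⟨Finset.univ.sup N₀, fun N hNN => ?_⟩
  have hNρ : ∀ ρ : Rho g S 𝔮, N₀ ρ ≤ N := fun ρ =>
    (Finset.le_sup (f := N₀) (Finset.mem_univ ρ)).trans hNN
  have hsub : {f : (𝓞 F)[X] | Pol g f ∧ (∀ q ∈ S, Gq q (𝔮 q) f) ∧ BadS g N κ S 𝔮 f} ⊆
      ⋃ ρ : Rho g S 𝔮, {f : (𝓞 F)[X] | LBad g N κ S 𝔮 (P ρ) f} := by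
    rintro f ⟨hf1, hf2, hf3⟩
    rw [Set.mem_iUnion]
    obtain ⟨ρ, hρ⟩ : ∃ ρ : Rho g S 𝔮, ∀ q : S,
        (ρ q : Fin (2 * g) → 𝓞 F ⧸ sp F q) = mkr g (q : ℕ) f :=
      ⟨fun q => ⟨mkr g (q : ℕ) f, (mem_GR (hS q q.2).mem hf1).2 (hf2 q q.2)⟩, fun q => rfl⟩
    refine ⟨ρ, lbad (fun q hq 𝔭 _ hqp => ?_) hf3⟩
    have hle : sp F q ≤ 𝔭 := by rwa [sp, Ideal.span_singleton_le_iff_mem]
    refine Pool.Agent.H458.AG.rd_eq hle ((mkr_eq hf1 (hP1 ρ q hq).1).1 ?_)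
    rw [← hρ ⟨q, hq⟩, ← hP2 ρ ⟨q, hq⟩]
  have hfinU : (⋃ ρ : Rho g S 𝔮,
      {f : (𝓞 F)[X] | LBad g N κ S 𝔮 (P ρ) f}).Finite :=
    Set.finite_iUnion fun ρ => (hN₀ ρ N (hNρ ρ)).1
  refine ⟨hfinU.subset hsub, ?_⟩
  have hcard := (Set.ncard_le_ncard hsub hfinU).trans (Set.ncard_iUnion_le_of_fintype _)
  have hprod : (∏ q ∈ S, q) ^ (2 * g * Module.finrank ℚ F) =
      (∏ q ∈ S, q ^ (2 * g)) ^ Module.finrank ℚ F := by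
    rw [pow_mul, Finset.prod_pow]
  rw [hprod, ← card_rho, Nat.card_eq_fintype_card]
  calc _ ≤ 2 ^ S.card * (∏ q ∈ S, q ^ (2 * g)) ^ Module.finrank ℚ F *
        ∑ ρ : Rho g S 𝔮, {f : (𝓞 F)[X] | LBad g N κ S 𝔮 (P ρ) f}.ncard :=
        Nat.mul_le_mul_left _ hcard
    _ = ∑ ρ : Rho g S 𝔮, 2 ^ S.card * (∏ q ∈ S, q ^ (2 * g)) ^ Module.finrank ℚ F *
        {f : (𝓞 F)[X] | LBad g N κ S 𝔮 (P ρ) f}.ncard :=
        Finset.mul_sum _ _ _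
    _ ≤ ∑ _ρ : Rho g S 𝔮, C * 2 ^ (Module.finrank ℚ F * (2 * N * Pool.Agent.N352.PJ.dd g)) :=
        Finset.sum_le_sum fun ρ _ => (hN₀ ρ N (hNρ ρ)).2
    _ = _ := by
        rw [Finset.sum_const, Finset.card_univ, smul_eq_mul]
        ring

end Pool.Agent.H47.AG458.BDS
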